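import Mathlib
import Pool.Agent.Lib.MP_51c9ba_ag.Low

namespace Pool.Agent.Results.MP_51c9ba_ag.LowDegree

open MvPolynomial

theorem result (n d e m m' : ℕ) (F G : MvPolynomial (Fin (n + 3)) ℂ)
    (φ ψ : Fin (n + 3) → MvPolynomial (Fin (n + 3)) ℂ)
    (hF : F.IsHomogeneous d) (hG : G.IsHomogeneous e)
    (hsF : ∀ x : Fin (n + 3) → ℂ, x ≠ 0 → ∃ i, eval x (pderiv i F) ≠ 0)
    (hsG : ∀ x : Fin (n + 3) → ℂ, x ≠ 0 → ∃ i, eval x (pderiv i G) ≠ 0)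
    (hφh : ∀ j, (φ j).IsHomogeneous m) (hψh : ∀ j, (ψ j).IsHomogeneous m')
    (hφ : ∀ P : Ideal (MvPolynomial (Fin (n + 3)) ℂ), P.IsPrime → F ∈ P → (∀ j, φ j ∈ P) →
      3 ≤ P.height)
    (hψ : ∀ P : Ideal (MvPolynomial (Fin (n + 3)) ℂ), P.IsPrime → G ∈ P → (∀ j, ψ j ∈ P) →
      3 ≤ P.height)
    (hA : F ∣ aeval φ G) (hB : G ∣ aeval ψ F)
    (hinv : ∀ k l, F ∣ aeval φ (ψ k) * X l - aeval φ (ψ l) * X k)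
    (hne : ∃ k, ¬ F ∣ aeval φ (ψ k))
    (hinv' : ∀ k l, G ∣ aeval ψ (φ k) * X l - aeval ψ (φ l) * X k)
    (hne' : ∃ k, ¬ G ∣ aeval ψ (φ k))
    (hd : m + 2 ≤ d ∨ m' + 2 ≤ e) :
    m = 1 ∧ m' = 1 ∧ ∃ c : ℂ, c ≠ 0 ∧ aeval φ G = C c * F :=
  Pool.Agent.Lib.MP_51c9ba_ag.low_main hF hG hsF hsG hφh hψh hφ hψ hA hB hinv hne hinv' hne' hd

end Pool.Agent.Results.MP_51c9ba_ag.LowDegree
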